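import Mathlib
import Pool.Agent.V7H89.C2.Top
import Pool.Agent.Results.MP_c20521_an.BelowN

/-!
# Zero-argument gap of lacunary entire functions: infinite order, and no restriction on the order

The definitions `Lac`, `Lac.δ`, `Lac.A`, `Lac.order`, `Lac.zeros`, `G`, `g` are those of
`Pool/Agent/Results/MP_c20521_an/BelowN.lean`:
* `Lac`: power series `∑ a_k z^(e_k)`, `e` strictly increasing, `a_k > 0`, convergent on all of `ℂ`;
* `Lac.zeros` (the zero set), `Lac.A` (upper limit of the gaps), `Lac.δ` (lower limit of `|arg|` over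
  the zeros), `Lac.order` (the order, an extended real);
* `G n ρ`: infinitely many zeros, `A = n`, order `ρ`; `g n ρ` is the supremum of `δ` over `G n ρ`.
-/

set_option autoImplicit false

namespace Pool.Agent.Results.MP_c20521_an.InfiniteOrderH89

open Complex Set Filter Topology
open Pool.Agent.Results.MP_c20521_an.BelowN
open Pool.Agent.V7H89.C2

noncomputable section

/-- the class `G(n)`: infinitely many zeros and `A = n`, no restriction on the order -/
def Gall (n : ℕ) : Set Lac := {F | F.zeros.Infinite ∧ F.A = n}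

theorem bdd_all (n : ℕ) : BddAbove (Lac.δ '' Gall n) := by
  refine ⟨Real.pi, ?_⟩
  rintro _ ⟨F, hF, rfl⟩
  exact delta_le F hF.1

/-- `g_∞(n) = π`, and the supremum of `δ` over `G(n)` is `π`. -/
theorem result (n : ℕ) (hn : 2 ≤ n) :
    g n ⊤ = Real.pi ∧ sSup (Lac.δ '' Gall n) = Real.pi := by
  have hne : (G n ⊤).Nonempty := by
    obtain ⟨F, hF, _⟩ := top_ge n hn 0 Real.pi_pos
    exact ⟨F, hF⟩
  constructor
  · apply le_antisymm
    · apply csSup_le (hne.image _)
      rintro _ ⟨F, hF, rfl⟩
      exact delta_le F hF.1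
    · apply le_of_forall_lt
      intro t ht
      obtain ⟨s, hs1, hs2⟩ := exists_between ht
      obtain ⟨F, hF, h⟩ := top_ge n hn s hs2
      exact lt_of_lt_of_le hs1 (h.trans (le_csSup (bdd n _) ⟨F, hF, rfl⟩))
  · apply le_antisymm
    · have hne2 : (Gall n).Nonempty := by
        obtain ⟨F, hF⟩ := hne
        exact ⟨F, hF.1, hF.2.1⟩
      apply csSup_le (hne2.image _)
      rintro _ ⟨F, hF, rfl⟩
      exact delta_le F hF.1
    · apply le_of_forall_lt
      intro t ht
      obtain ⟨s, hs1, hs2⟩ := exists_between ht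
      obtain ⟨F, hF, h⟩ := top_ge n hn s hs2
      exact lt_of_lt_of_le hs1 (h.trans (le_csSup (bdd_all n) ⟨F, ⟨hF.1, hF.2.1⟩, rfl⟩))

end

end Pool.Agent.Results.MP_c20521_an.InfiniteOrderH89
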