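import Mathlib
import Pool.Agent.V7H89.C2.Top
import Pool.Agent.Results.MP_c20521_an.BelowN

/-!
# Zero-argument gap of lacunary entire functions: large integer orders

The definitions `Lac`, `Lac.δ`, `Lac.A`, `Lac.order`, `Lac.zeros`, `G`, `g` are those of
`Pool/Agent/Results/MP_c20521_an/BelowN.lean`:
* `Lac`: power series `∑ a_k z^(e_k)`, `e` strictly increasing, `a_k > 0`, convergent on all of `ℂ`;
* `Lac.zeros` (the zero set), `Lac.A` (upper limit of the gaps), `Lac.δ` (lower limit of `|arg|` over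
  the zeros), `Lac.order` (the order, an extended real);
* `G n ρ`: infinitely many zeros, `A = n`, order `ρ`; `g n ρ` is the supremum of `δ` over `G n ρ`.
-/

set_option autoImplicit false

namespace Pool.Agent.Results.MP_c20521_an.IntegerOrderH89

open Complex Set Filter Topology
open Pool.Agent.Results.MP_c20521_an.BelowN
open Pool.Agent.V7H89.C2

noncomputable section

/-- Lower bounds for `g_N(n)`, `N > n` an integer; in particular `g_N(n) → π`. -/
theorem result (n : ℕ) (hn : 2 ≤ n) :
    (∀ N D : ℕ, n < N → (D = n ∨ D + 1 = n) → Odd (N + D) →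
      Real.pi * (1 - ((D : ℝ) + 1 / 2) / N) ≤ g n ((N : ℝ) : EReal)) ∧
    Tendsto (fun N : ℕ => g n ((N : ℝ) : EReal)) atTop (𝓝 Real.pi) := by
  refine ⟨lower n hn, ?_⟩
  have hlim : Tendsto (fun N : ℕ => Real.pi * (1 - ((n : ℝ) + 1 / 2) / N)) atTop (𝓝 (Real.pi * (1 - 0))) :=
    (tendsto_const_nhds.sub (tendsto_const_nhds.div_atTop tendsto_natCast_atTop_atTop)).const_mul _
  rw [sub_zero, mul_one] at hlim
  have hpi := Real.pi_pos
  have hlow : ∀ N : ℕ, n < N → Real.pi * (1 - ((n : ℝ) + 1 / 2) / N) ≤ g n ((N : ℝ) : EReal) := by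
    intro N hN
    have hN0 : (0:ℝ) < N := by exact_mod_cast (by omega : 0 < N)
    rcases Nat.even_or_odd (N + n) with h | h
    · have h1 := lower n hn N (n - 1) hN (Or.inr (by omega)) (by
        obtain ⟨k, hk⟩ := h
        exact ⟨k - 1, by omega⟩)
      refine le_trans ?_ h1
      apply mul_le_mul_of_nonneg_left _ hpi.le
      have h2 : (((n - 1 : ℕ) : ℝ) + 1 / 2) / N ≤ ((n : ℝ) + 1 / 2) / N := by
        apply div_le_div_of_nonneg_right _ hN0.le
        have : ((n - 1 : ℕ) : ℝ) ≤ n := by exact_mod_cast (by omega : n - 1 ≤ n)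
        linarith
      linarith
    · exact lower n hn N n hN (Or.inl rfl) h
  refine tendsto_of_tendsto_of_tendsto_of_le_of_le' hlim tendsto_const_nhds ?_ ?_
  · filter_upwards [eventually_gt_atTop n] with N hN
    exact hlow N hN
  · filter_upwards with N
    unfold g
    rcases (Lac.δ '' G n ((N : ℝ) : EReal)).eq_empty_or_nonempty with h | h
    · rw [h, Real.sSup_empty]; exact hpi.le
    · apply csSup_le h
      rintro _ ⟨F, hF, rfl⟩
      exact delta_le F hF.1

end

end Pool.Agent.Results.MP_c20521_an.IntegerOrderH89
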